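import Mathlib
import Pool.Agent.Q77.LU.StmH

/-!
# Haar measure in exponential coordinates: auxiliary file
-/

set_option autoImplicit false

namespace Pool.Agent.Q241.LU

open MeasureTheory Set Filter Topology
open scoped ContDiff
open Pool.Agent.Q77.LU (n2)

noncomputable section

section norm

variable {n : ℕ}

lemma n2_cont : Continuous (fun v : Fin n → ℝ => n2 v) := by
  unfold n2
  fun_prop

lemma n2_nonneg (v : Fin n → ℝ) : 0 ≤ n2 v :=
  Finset.sum_nonneg fun i _ => sq_nonneg (v i)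

lemma n2_zero : n2 (0 : Fin n → ℝ) = 0 := by
  simp [n2]

lemma n2_neg (v : Fin n → ℝ) : n2 (-v) = n2 v := by
  simp [n2]

lemma norm_lt_of_n2 {v : Fin n → ℝ} {r : ℝ} (hr : 0 < r) (h : n2 v < r ^ 2) : ‖v‖ < r := by
  rw [pi_norm_lt_iff hr]
  intro i
  have h1 : v i ^ 2 ≤ n2 v :=
    Finset.single_le_sum (f := fun i => v i ^ 2) (fun j _ => sq_nonneg (v j)) (Finset.mem_univ i)
  rw [Real.norm_eq_abs]
  exact abs_lt_of_sq_lt_sq (lt_of_le_of_lt h1 h) hr.le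

lemma isOpen_U (r : ℝ) : IsOpen {v : Fin n → ℝ | n2 v < r ^ 2} :=
  isOpen_lt n2_cont continuous_const

lemma U_mem_nhds {r : ℝ} (hr : 0 < r) : {v : Fin n → ℝ | n2 v < r ^ 2} ∈ 𝓝 (0 : Fin n → ℝ) := by
  refine (isOpen_U r).mem_nhds ?_
  show n2 (0 : Fin n → ℝ) < r ^ 2
  rw [n2_zero]
  positivity

lemma exists_U {S : Set (Fin n → ℝ)} (hS : S ∈ 𝓝 (0 : Fin n → ℝ)) :
    ∃ r : ℝ, 0 < r ∧ ∀ v, n2 v < r ^ 2 → v ∈ S := by
  obtain ⟨r, hr, h⟩ := Metric.mem_nhds_iff.1 hS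
  exact ⟨r, hr, fun v hv => h (by rw [mem_ball_zero_iff]; exact norm_lt_of_n2 hr hv)⟩

lemma exists_U2 {S : Set ((Fin n → ℝ) × (Fin n → ℝ))} (hS : S ∈ 𝓝 ((0, 0) : (Fin n → ℝ) × (Fin n → ℝ))) :
    ∃ r : ℝ, 0 < r ∧ ∀ v w, n2 v < r ^ 2 → n2 w < r ^ 2 → (v, w) ∈ S := by
  rw [nhds_prod_eq, Filter.mem_prod_iff] at hS
  obtain ⟨A, hA, B, hB, h⟩ := hS
  obtain ⟨r, hr, h1⟩ := exists_U hA
  obtain ⟨s, hs, h2⟩ := exists_U hB
  refine ⟨min r s, lt_min hr hs, fun v w hv hw => h ⟨h1 v ?_, h2 w ?_⟩⟩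
  · exact hv.trans_le (pow_le_pow_left₀ (lt_min hr hs).le (min_le_left _ _) 2)
  · exact hw.trans_le (pow_le_pow_left₀ (lt_min hr hs).le (min_le_right _ _) 2)

lemma U_mono {r s : ℝ} (hr : 0 < r) (h : r ≤ s) {v : Fin n → ℝ} (hv : n2 v < r ^ 2) :
    n2 v < s ^ 2 := hv.trans_le (pow_le_pow_left₀ hr.le h 2)

end norm

/-- The local data of a group with an exponential map. -/
structure LD (G A : Type) [Group G] [TopologicalSpace G] [NormedRing A] [NormedAlgebra ℝ A]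
    (n : ℕ) where
  mt : G → A
  mt_mul : ∀ g h, mt (g * h) = mt g * mt h
  mt_cont : Continuous mt
  X : (Fin n → ℝ) → A
  X_smooth : ContDiff ℝ ∞ X
  X_zero : X 0 = 1
  e : (Fin n → ℝ) → G
  mt_e : ∀ v, mt (e v) = X v
  e_cont : Continuous e
  e_zero : e 0 = 1
  e_neg : ∀ v, e (-v) = (e v)⁻¹
  lg : A → (Fin n → ℝ)
  lg_smooth : ContDiff ℝ ∞ lg
  R : ℝ
  ε : ℝ
  R_pos : 0 < R
  ε_pos : 0 < ε
  lg_X : ∀ v, n2 v < R ^ 2 → lg (X v) = v
  loc : ∀ g : G, ‖mt g - 1‖ < ε → n2 (lg (mt g)) < R ^ 2 ∧ e (lg (mt g)) = g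

namespace LD

variable {G A : Type} [Group G] [TopologicalSpace G] [NormedRing A] [NormedAlgebra ℝ A] {n : ℕ}
  (L : LD G A n)

/-- Local multiplication. -/
def m (x y : Fin n → ℝ) : Fin n → ℝ := L.lg (L.X x * L.X y)

/-- The Jacobian of the left translation. -/
def Dm (x v : Fin n → ℝ) : ℝ := (fderiv ℝ (L.m x) v).det

/-- The Jacobian at `0`. -/
def D (v : Fin n → ℝ) : ℝ := L.Dm v 0

lemma m_smooth : ContDiff ℝ ∞ (fun p : (Fin n → ℝ) × (Fin n → ℝ) => L.m p.1 p.2) := by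
  unfold m
  exact L.lg_smooth.comp ((L.X_smooth.comp contDiff_fst).mul (L.X_smooth.comp contDiff_snd))

lemma m_smooth_right (x : Fin n → ℝ) : ContDiff ℝ ∞ (L.m x) := by
  have h := L.m_smooth.comp (contDiff_const.prodMk contDiff_id :
    ContDiff ℝ ∞ fun y : Fin n → ℝ => (x, y))
  exact h

lemma e_inj {x y : Fin n → ℝ} (hx : n2 x < L.R ^ 2) (hy : n2 y < L.R ^ 2) (h : L.e x = L.e y) :
    x = y := by
  rw [← L.lg_X x hx, ← L.lg_X y hy, ← L.mt_e, ← L.mt_e, h]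

lemma m_zero_right {x : Fin n → ℝ} (hx : n2 x < L.R ^ 2) : L.m x 0 = x := by
  unfold m
  rw [L.X_zero, mul_one, L.lg_X x hx]

lemma m_zero_left {x : Fin n → ℝ} (hx : n2 x < L.R ^ 2) : L.m 0 x = x := by
  unfold m
  rw [L.X_zero, one_mul, L.lg_X x hx]

lemma e_m {x y : Fin n → ℝ} (h : ‖L.X x * L.X y - 1‖ < L.ε) :
    L.e (L.m x y) = L.e x * L.e y ∧ n2 (L.m x y) < L.R ^ 2 := by
  have h1 : L.mt (L.e x * L.e y) = L.X x * L.X y := by rw [L.mt_mul, L.mt_e, L.mt_e]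
  have h2 := L.loc (L.e x * L.e y) (by rw [h1]; exact h)
  rw [h1] at h2
  exact ⟨h2.2, h2.1⟩

lemma X_m {x y : Fin n → ℝ} (h : ‖L.X x * L.X y - 1‖ < L.ε) :
    L.X (L.m x y) = L.X x * L.X y := by
  rw [← L.mt_e, (L.e_m h).1, L.mt_mul, L.mt_e, L.mt_e]

lemma D_zero : L.D 0 = 1 := by
  unfold D Dm
  have h1 : L.m 0 =ᶠ[𝓝 0] id := by
    filter_upwards [U_mem_nhds L.R_pos] with y hy
    exact L.m_zero_left hy
  rw [h1.fderiv_eq, fderiv_id]
  exact LinearMap.det_id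

lemma chain {h v : Fin n → ℝ} (hv : n2 v < L.R ^ 2) (hhv : ‖L.X h * L.X v - 1‖ < L.ε)
    (hv2 : ‖L.X v - 1‖ < L.ε) : L.Dm h v * L.D v = L.D (L.m h v) := by
  have h1 : (fun y => L.m h (L.m v y)) =ᶠ[𝓝 0] L.m (L.m h v) := by
    have hc : ContinuousAt (fun y => ‖L.X v * L.X y - 1‖) 0 :=
      ((continuous_const.mul L.X_smooth.continuous).sub continuous_const).norm.continuousAt
    have h2 : ‖L.X v * L.X 0 - 1‖ < L.ε := by rw [L.X_zero, mul_one]; exact hv2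
    filter_upwards [hc.eventually (gt_mem_nhds h2)] with y hy
    show L.m h (L.m v y) = L.m (L.m h v) y
    unfold m
    have h3 := L.X_m hy
    have h4 := L.X_m hhv
    unfold m at h3 h4
    rw [h3, h4, mul_assoc]
  have h5 : fderiv ℝ (L.m (L.m h v)) 0 = (fderiv ℝ (L.m h) v).comp (fderiv ℝ (L.m v) 0) := by
    rw [← h1.fderiv_eq]
    have h6 : HasFDerivAt (L.m v) (fderiv ℝ (L.m v) 0) 0 :=
      ((L.m_smooth_right v).differentiable (by simp)).differentiableAt.hasFDerivAt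
    have h7 : HasFDerivAt (L.m h) (fderiv ℝ (L.m h) v) (L.m v 0) := by
      rw [L.m_zero_right hv]
      exact ((L.m_smooth_right h).differentiable (by simp)).differentiableAt.hasFDerivAt
    exact (h7.comp 0 h6).fderiv
  unfold D
  rw [show L.Dm (L.m h v) 0 = (fderiv ℝ (L.m (L.m h v)) 0).det from rfl, h5]
  unfold Dm
  exact (LinearMap.det_comp _ _).symm

lemma D_smooth : ContDiff ℝ ∞ L.D := by
  have h1 : ContDiff ℝ ∞ (fun x => fderiv ℝ (L.m x) (0 : Fin n → ℝ)) :=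
    ContDiff.fderiv (m := ∞) (n := ∞) (f := L.m) (g := fun _ => 0) L.m_smooth contDiff_const
      (by simp)
  have h2 : ∀ x, L.D x = Matrix.det (fun i j : Fin n =>
      (fderiv ℝ (L.m x) 0) (Pi.single j 1) i) := by
    intro x
    unfold D Dm
    rw [ContinuousLinearMap.det, ← LinearMap.det_toMatrix']
    congr 1
  rw [show L.D = fun x => Matrix.det (fun i j : Fin n =>
      (fderiv ℝ (L.m x) 0) (Pi.single j 1) i) from funext h2]
  simp only [Matrix.det_apply]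
  refine ContDiff.sum fun σ _ => ?_
  refine ContDiff.const_smul _ ?_
  refine contDiff_prod fun i _ => ?_
  have h3 : ContDiff ℝ ∞ fun x => (fderiv ℝ (L.m x) 0) (Pi.single i 1) :=
    h1.clm_apply contDiff_const
  exact (contDiff_pi.1 h3) _

/-- A smooth positive function equal to the inverse of the Jacobian near `0`, and radii of
validity of the group law. -/
lemma exists_j : ∃ (j : (Fin n → ℝ) → ℝ) (ra rb : ℝ), 0 < ra ∧ ra ≤ rb ∧ rb ≤ L.R ∧
    ContDiff ℝ ∞ j ∧ (∀ v, 0 < j v) ∧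
    (∀ h v, n2 h < rb ^ 2 → n2 v < rb ^ 2 → L.e (L.m h v) = L.e h * L.e v ∧
      n2 (L.m h v) < L.R ^ 2 ∧ |L.Dm h v| * j (L.m h v) = j v) ∧
    ∀ h v, n2 h < ra ^ 2 → n2 v < ra ^ 2 → n2 (L.m h v) < rb ^ 2 := by
  -- the bump function
  have hD : ContinuousAt (fun v => |L.D v - 1|) 0 :=
    (L.D_smooth.continuous.sub continuous_const).abs.continuousAt
  have h0 : |L.D 0 - 1| < 1 := by rw [L.D_zero]; simp
  obtain ⟨r, hr, hrr⟩ := Metric.mem_nhds_iff.1 (hD.eventually (gt_mem_nhds h0))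
  let κ : ContDiffBump (0 : Fin n → ℝ) := ⟨r / 2, r, by positivity, by linarith⟩
  have hκ0 : ∀ v, 0 ≤ κ v ∧ κ v ≤ 1 := fun v => ⟨κ.nonneg, κ.le_one⟩
  have hpos : ∀ v, 0 < 1 + κ v * (L.D v - 1) := by
    intro v
    by_cases hv : v ∈ Metric.ball (0 : Fin n → ℝ) r
    · have h1 : |L.D v - 1| < 1 := hrr hv
      have h2 := abs_lt.1 h1
      have h3 := hκ0 v
      nlinarith
    · have h1 : κ v = 0 := by
        by_contra h2
        have h3 : v ∈ Function.support κ := h2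
        rw [κ.support_eq] at h3
        exact hv h3
      rw [h1]; simp
  have hsm : ContDiff ℝ ∞ (fun v => 1 + κ v * (L.D v - 1)) :=
    contDiff_const.add (κ.contDiff.mul (L.D_smooth.sub contDiff_const))
  have hone : ∀ᶠ v in 𝓝 (0 : Fin n → ℝ), κ v = 1 := κ.eventuallyEq_one
  -- the radii
  have hm : Continuous (fun p : (Fin n → ℝ) × (Fin n → ℝ) => L.m p.1 p.2) :=
    L.m_smooth.continuous
  have hm0 : L.m 0 0 = 0 := L.m_zero_right (by rw [n2_zero]; exact pow_pos L.R_pos 2)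
  obtain ⟨r1, hr1, hr1'⟩ := exists_U hone
  obtain ⟨r2, hr2, hr2'⟩ := exists_U2 (S := {p | ‖L.X p.1 * L.X p.2 - 1‖ < L.ε}) (by
    have h1 : Continuous (fun p : (Fin n → ℝ) × (Fin n → ℝ) => ‖L.X p.1 * L.X p.2 - 1‖) :=
      (((L.X_smooth.continuous.comp continuous_fst).mul
        (L.X_smooth.continuous.comp continuous_snd)).sub continuous_const).norm
    refine (isOpen_lt h1 continuous_const).mem_nhds ?_
    show ‖L.X 0 * L.X 0 - 1‖ < L.ε
    rw [L.X_zero]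
    simpa using L.ε_pos)
  obtain ⟨r3, hr3, hr3'⟩ := exists_U2 (S := {p | n2 (L.m p.1 p.2) < r1 ^ 2}) (by
    refine (isOpen_lt (n2_cont.comp hm) continuous_const).mem_nhds ?_
    show n2 (L.m 0 0) < r1 ^ 2
    rw [hm0, n2_zero]; positivity)
  set rb := min (min r1 r2) (min r3 L.R) with hrb
  have hrbp : 0 < rb := lt_min (lt_min hr1 hr2) (lt_min hr3 L.R_pos)
  have hb1 : rb ≤ r1 := (min_le_left _ _).trans (min_le_left _ _)
  have hb2 : rb ≤ r2 := (min_le_left _ _).trans (min_le_right _ _)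
  have hb3 : rb ≤ r3 := (min_le_right _ _).trans (min_le_left _ _)
  have hb4 : rb ≤ L.R := (min_le_right _ _).trans (min_le_right _ _)
  obtain ⟨r4, hr4, hr4'⟩ := exists_U2 (S := {p | n2 (L.m p.1 p.2) < rb ^ 2}) (by
    refine (isOpen_lt (n2_cont.comp hm) continuous_const).mem_nhds ?_
    show n2 (L.m 0 0) < rb ^ 2
    rw [hm0, n2_zero]; positivity)
  refine ⟨fun v => (1 + κ v * (L.D v - 1))⁻¹, min r4 rb, rb, lt_min hr4 hrbp, min_le_right _ _,
    hb4, ?_, fun v => inv_pos.2 (hpos v), ?_, ?_⟩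
  · exact hsm.inv fun v => (hpos v).ne'
  · intro h v hh hv
    have h1 : ‖L.X h * L.X v - 1‖ < L.ε := hr2' h v (U_mono hrbp hb2 hh) (U_mono hrbp hb2 hv)
    have h2 : ‖L.X v - 1‖ < L.ε := by
      have h3 : ‖L.X v * L.X 0 - 1‖ < L.ε :=
        hr2' v 0 (U_mono hrbp hb2 hv) (by rw [n2_zero]; positivity)
      rwa [L.X_zero, mul_one] at h3
    have h3 : L.Dm h v * L.D v = L.D (L.m h v) := L.chain (U_mono hrbp hb4 hv) h1 h2
    refine ⟨(L.e_m h1).1, (L.e_m h1).2, ?_⟩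
    have h4 : κ v = 1 := hr1' v (U_mono hrbp hb1 hv)
    have h5 : κ (L.m h v) = 1 :=
      hr1' _ (hr3' h v (U_mono hrbp hb3 hh) (U_mono hrbp hb3 hv))
    have h6 := hpos v
    have h7 := hpos (L.m h v)
    show |L.Dm h v| * (1 + κ (L.m h v) * (L.D (L.m h v) - 1))⁻¹ = (1 + κ v * (L.D v - 1))⁻¹
    rw [h4] at h6 ⊢
    rw [h5] at h7 ⊢
    have h8 : 0 < L.D v := by linarith
    have h9 : 0 < L.D (L.m h v) := by linarith
    have h10 : 0 < L.Dm h v := by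
      rw [← h3] at h9
      exact (pos_iff_pos_of_mul_pos h9).2 h8
    rw [abs_of_pos h10]
    rw [show 1 + 1 * (L.D (L.m h v) - 1) = L.D (L.m h v) by ring,
      show 1 + 1 * (L.D v - 1) = L.D v by ring, ← h3]
    field_simp
  · intro h v hh hv
    exact hr4' h v (U_mono (lt_min hr4 hrbp) (min_le_left _ _) hh)
      (U_mono (lt_min hr4 hrbp) (min_le_left _ _) hv)

/-- Local invariance. -/
lemma inv_loc {j : (Fin n → ℝ) → ℝ} {ra rb : ℝ} (hra : 0 < ra) (hab : ra ≤ rb)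
    (hbR : rb ≤ L.R)
    (h1 : ∀ h v, n2 h < rb ^ 2 → n2 v < rb ^ 2 → L.e (L.m h v) = L.e h * L.e v ∧
      n2 (L.m h v) < L.R ^ 2 ∧ |L.Dm h v| * j (L.m h v) = j v)
    (h2 : ∀ h v, n2 h < ra ^ 2 → n2 v < ra ^ 2 → n2 (L.m h v) < rb ^ 2)
    {h : Fin n → ℝ} (hh : n2 h < ra ^ 2) (F : G → ℝ)
    (hF : ∀ g, F g ≠ 0 → ∃ u, n2 u < ra ^ 2 ∧ g = L.e u) :
    ∫ v in {v | n2 v < rb ^ 2}, F (L.e h * L.e v) * j v =
      ∫ v in {v | n2 v < rb ^ 2}, F (L.e v) * j v := by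
  set S : Set (Fin n → ℝ) := {v | n2 v < rb ^ 2} with hS
  have hSm : MeasurableSet S := (isOpen_U rb).measurableSet
  have hhb : n2 h < rb ^ 2 := U_mono hra hab hh
  have hrb : 0 < rb := hra.trans_le hab
  have hinj : InjOn (L.m h) S := by
    intro v hv w hw hvw
    have h3 := (h1 h v hhb hv).1
    have h4 := (h1 h w hhb hw).1
    rw [hvw, h4] at h3
    exact L.e_inj (U_mono hrb hbR hv) (U_mono hrb hbR hw) (mul_left_cancel h3.symm)
  have hder : ∀ v ∈ S, HasFDerivWithinAt (L.m h) (fderiv ℝ (L.m h) v) S v := fun v _ =>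
    (((L.m_smooth_right h).differentiable (by simp)).differentiableAt.hasFDerivAt).hasFDerivWithinAt
  have h3 := integral_image_eq_integral_abs_det_fderiv_smul volume hSm hder hinj
    (fun u => F (L.e u) * j u)
  have h4 : ∫ v in S, F (L.e h * L.e v) * j v =
      ∫ v in S, |(fderiv ℝ (L.m h) v).det| • (F (L.e (L.m h v)) * j (L.m h v)) := by
    refine setIntegral_congr_fun hSm fun v hv => ?_
    obtain ⟨h5, h6, h7⟩ := h1 h v hhb hv
    show F (L.e h * L.e v) * j v = |(fderiv ℝ (L.m h) v).det| * (F (L.e (L.m h v)) * j (L.m h v))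
    rw [h5, ← h7]
    unfold Dm
    ring
  rw [h4, ← h3]
  -- both integrals are over the common support
  have hT : ∀ u, n2 u < ra ^ 2 → u ∈ L.m h '' S := by
    intro u hu
    have h5 : n2 (-h) < ra ^ 2 := by rw [n2_neg]; exact hh
    refine ⟨L.m (-h) u, h2 _ _ h5 hu, ?_⟩
    have h6 := h1 (-h) u (U_mono hra hab h5) (U_mono hra hab hu)
    have h7 := h1 h (L.m (-h) u) hhb (h2 _ _ h5 hu)
    refine L.e_inj h7.2.1 (U_mono hra (hab.trans hbR) hu) ?_
    rw [h7.1, h6.1, L.e_neg]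
    group
  have hz1 : ∀ u ∈ L.m h '' S, u ∉ {v | n2 v < ra ^ 2} → F (L.e u) * j u = 0 := by
    rintro u ⟨v, hv, rfl⟩ hu
    by_contra hne
    have h5 : F (L.e (L.m h v)) ≠ 0 := fun h6 => hne (by rw [h6, zero_mul])
    obtain ⟨w, hw, hw2⟩ := hF _ h5
    apply hu
    show n2 (L.m h v) < ra ^ 2
    rw [L.e_inj (h1 h v hhb hv).2.1 (U_mono hra (hab.trans hbR) hw) hw2]
    exact hw
  have hz2 : ∀ u ∈ S, u ∉ {v | n2 v < ra ^ 2} → F (L.e u) * j u = 0 := by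
    intro u hu hu2
    by_contra hne
    have h5 : F (L.e u) ≠ 0 := fun h6 => hne (by rw [h6, zero_mul])
    obtain ⟨w, hw, hw2⟩ := hF _ h5
    apply hu2
    show n2 u < ra ^ 2
    rw [L.e_inj (U_mono hrb hbR hu) (U_mono hra (hab.trans hbR) hw) hw2]
    exact hw
  have hm2 : MeasurableSet (L.m h '' S) :=
    measurable_image_of_fderivWithin hSm hder hinj
  rw [setIntegral_eq_of_subset_of_forall_sdiff_eq_zero hm2 (fun u hu => hT u hu)
    (fun u hu => hz1 u hu.1 hu.2),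
    setIntegral_eq_of_subset_of_forall_sdiff_eq_zero hSm
      (fun u (hu : n2 u < ra ^ 2) => (U_mono hra hab hu : n2 u < rb ^ 2))
      (fun u hu => hz2 u hu.1 hu.2)]

end LD

end

end Pool.Agent.Q241.LU
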