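import Mathlib
import Pool.Agent.Q241.LU.HaarMain

/-!
# Job HAAR1 of project LU: Haar measure in the exponential chart
-/

set_option autoImplicit false

namespace Pool.Agent.Q241.LU

open MeasureTheory Matrix Set Filter Topology
open scoped ContDiff Matrix.Norms.Frobenius
open Pool.Agent.Q77.LU

noncomputable section

variable {N n : ℕ} {G : Subgroup (UU N)}

lemma mt_inj {g h : G} (hgh : mt g = mt h) : g = h := Subtype.ext (Subtype.ext hgh)

lemma mt_mulG (g h : G) : mt (g * h) = mt g * mt h := rfl

lemma mt_oneG : mt (1 : G) = 1 := rfl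

lemma mt_contG : Continuous (mt : G → Mt N) :=
  continuous_subtype_val.comp continuous_subtype_val

lemma lin_smooth (B : LieBasis G n) : ContDiff ℝ ∞ (lin B) := by
  unfold lin
  refine ContDiff.sum fun a _ => ?_
  exact (contDiff_apply ℝ ℝ a).smul contDiff_const

lemma exp_smooth : ContDiff ℝ ∞ (NormedSpace.exp : Mt N → Mt N) := by
  have : CompleteSpace (Mt N) := FiniteDimensional.complete ℝ (Mt N)
  rw [contDiff_iff_contDiffAt]
  intro x
  exact (NormedSpace.exp_analytic (𝕂 := ℝ) x).contDiffAt

lemma mt_eG (h1 : S_EXPG) (hG : IsClosed (G : Set (UU N))) (B : LieBasis G n) (v : Fin n → ℝ) :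
    mt (eG B v) = NormedSpace.exp (lin B v) := by
  have h2 := h1 N n G hG B v
  unfold eG
  rw [dif_pos h2]
  exact h2.choose_spec

lemma lin_neg (B : LieBasis G n) (v : Fin n → ℝ) : lin B (-v) = -lin B v := by
  unfold lin
  simp

lemma lin_zero (B : LieBasis G n) : lin B (0 : Fin n → ℝ) = 0 := by
  unfold lin
  simp

lemma eG_cont (h1 : S_EXPG) (hG : IsClosed (G : Set (UU N))) (B : LieBasis G n) :
    Continuous (eG B) := by
  have h3 : Continuous fun v => mt (eG B v) := by
    simp only [mt_eG h1 hG]
    exact exp_smooth.continuous.comp (lin_smooth B).continuous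
  exact continuous_induced_rng.2 (continuous_induced_rng.2 h3)

lemma eG_neg (h1 : S_EXPG) (hG : IsClosed (G : Set (UU N))) (B : LieBasis G n)
    (v : Fin n → ℝ) : eG B (-v) = (eG B v)⁻¹ := by
  have : CompleteSpace (Mt N) := FiniteDimensional.complete ℝ (Mt N)
  rw [eq_inv_iff_mul_eq_one]
  apply mt_inj
  rw [mt_mulG, mt_eG h1 hG, mt_eG h1 hG, lin_neg, mt_oneG]
  have h3 := NormedSpace.exp_add_of_commute (𝔸 := Mt N)
    ((Commute.refl (lin B v)).neg_left)
  refine Eq.trans h3.symm ?_
  rw [neg_add_cancel, NormedSpace.exp_zero]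

lemma eG_zero (h1 : S_EXPG) (hG : IsClosed (G : Set (UU N))) (B : LieBasis G n) :
    eG B 0 = 1 := by
  apply mt_inj
  rw [mt_eG h1 hG, lin_zero, NormedSpace.exp_zero, mt_oneG]

/-- Job HAAR1. -/
theorem t_HAAR1 (h1 : S_EXPG) (h2 : S_LOGC) : S_HAAR1 := by
  intro N n G hG B _ _ μ _ _
  obtain ⟨lg, ρ, ε, hρ, hε, hlg, h3, h4⟩ := h2 N n G hG B
  have : CompactSpace (UU N) := by
    have h5 : IsCompact (Set.pi Set.univ fun _ : Fin N => Set.pi Set.univ fun _ : Fin N =>
        Metric.closedBall (0 : ℂ) 1) :=
      isCompact_univ_pi fun _ => isCompact_univ_pi fun _ => isCompact_closedBall _ _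
    have h6 : IsCompact (UU N : Set (Mt N)) := by
      refine IsCompact.of_isClosed_subset h5 ?_ ?_
      · have h2 : (UU N : Set (Mt N)) = {A | A * star A = 1} := by
          ext A
          exact Matrix.mem_unitaryGroup_iff
        rw [h2]
        exact isClosed_eq (continuous_id.mul continuous_star) continuous_const
      · intro A hA i _ j _
        rw [mem_closedBall_zero_iff]
        exact entry_norm_bound_of_unitary hA i j
    exact isCompact_iff_compactSpace.1 h6
  have : CompactSpace G := by
    have h5 : IsCompact (G : Set (UU N)) := hG.isCompact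
    exact isCompact_iff_compactSpace.1 h5
  let L : LD G (Mt N) n :=
    { mt := mt
      mt_mul := mt_mulG
      mt_cont := mt_contG
      X := fun v => NormedSpace.exp (lin B v)
      X_smooth := exp_smooth.comp (lin_smooth B)
      X_zero := by rw [lin_zero, NormedSpace.exp_zero]
      e := eG B
      mt_e := mt_eG h1 hG B
      e_cont := eG_cont h1 hG B
      e_zero := eG_zero h1 hG B
      e_neg := eG_neg h1 hG B
      lg := lg
      lg_smooth := hlg
      R := ρ
      ε := ε
      R_pos := hρ
      ε_pos := hε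
      lg_X := h3
      loc := by
        intro g hg
        obtain ⟨h5, h6⟩ := h4 g hg
        refine ⟨h5, mt_inj ?_⟩
        rw [mt_eG h1 hG, ← h6] }
  exact haar_density μ L

end

end Pool.Agent.Q241.LU
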